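import Mathlib
import Pool.Agent.Helper1.Multi5

set_option autoImplicit false
open SimpleGraph

namespace Pool.Agent.Results.MP_be123d_co.TwoCycles

/-- From a permutation description of a 2-regular graph and an edge-sum labelling to a strong
vertex-magic total labelling. -/
theorem strong_of_perm {V : Type} [Fintype V] [DecidableEq V] (G : SimpleGraph V)
    [DecidableRel G.Adj] (σ : Equiv.Perm V) (h1 : ∀ v, σ v ≠ v) (h2 : ∀ v, σ (σ v) ≠ v)
    (hG : ∀ u v, G.Adj u v ↔ v = σ u ∨ u = σ v) (f g : V → ℕ) (k : ℕ)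
    (hf : Function.Injective f) (hg : Function.Injective g)
    (hfr : ∀ v, 1 ≤ f v ∧ f v ≤ Fintype.card V)
    (hgr : ∀ v, Fintype.card V + 1 ≤ g v ∧ g v ≤ 2 * Fintype.card V)
    (hk : ∀ v, f v + f (σ v) + g v = k) :
    ∃ F : V ⊕ G.edgeSet → ℕ, Function.Injective F ∧
      (∀ x, 1 ≤ F x ∧ F x ≤ Fintype.card V + Fintype.card G.edgeSet) ∧
      (∀ v : V, Fintype.card G.edgeSet < F (Sum.inl v)) ∧
      ∃ k : ℕ, ∀ x : V,
        F (Sum.inl x) + ∑ e ∈ Finset.univ.filter (fun e : G.edgeSet => x ∈ (e : Sym2 V)),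
          F (Sum.inr e) = k := by
  classical
  let ed : V → G.edgeSet := fun v => ⟨s(v, σ v), by
    rw [SimpleGraph.mem_edgeSet, hG]
    exact Or.inl rfl⟩
  have hed : ∀ v, ((ed v : G.edgeSet) : Sym2 V) = s(v, σ v) := fun _ => rfl
  have hinj : Function.Injective ed := by
    intro u v huv
    have h3 : s(u, σ u) = s(v, σ v) := congrArg (fun e : G.edgeSet => (e : Sym2 V)) huv
    rw [Sym2.eq_iff] at h3
    rcases h3 with ⟨h3, _⟩ | ⟨h3, h4⟩
    · exact h3
    · exfalso
      rw [h3] at h4
      exact h2 v h4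
  have hsurj : Function.Surjective ed := by
    rintro ⟨e, he⟩
    induction e using Sym2.ind with
    | _ u v =>
      rw [SimpleGraph.mem_edgeSet, hG] at he
      rcases he with rfl | rfl
      · exact ⟨u, rfl⟩
      · exact ⟨v, Subtype.ext (by rw [hed, Sym2.eq_swap])⟩
  let E : V ≃ G.edgeSet := Equiv.ofBijective ed ⟨hinj, hsurj⟩
  have hE : ∀ v, E v = ed v := fun _ => rfl
  have hcard : Fintype.card G.edgeSet = Fintype.card V := (Fintype.card_congr E).symm
  refine ⟨Sum.elim (fun v => g (σ.symm v)) (fun e => f (E.symm e)), ?_, ?_, ?_, k, ?_⟩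
  · rintro (u | e) (v | e') h
    · simp only [Sum.elim_inl] at h
      rw [σ.symm.injective (hg h)]
    · simp only [Sum.elim_inl, Sum.elim_inr] at h
      have := hgr (σ.symm u)
      have := hfr (E.symm e')
      omega
    · simp only [Sum.elim_inl, Sum.elim_inr] at h
      have := hgr (σ.symm v)
      have := hfr (E.symm e)
      omega
    · simp only [Sum.elim_inr] at h
      rw [E.symm.injective (hf h)]
  · rintro (u | e)
    · simp only [Sum.elim_inl]
      have := hgr (σ.symm u)
      omega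
    · simp only [Sum.elim_inr]
      have := hfr (E.symm e)
      omega
  · intro v
    simp only [Sum.elim_inl]
    have := hgr (σ.symm v)
    omega
  · intro x
    have hfil : Finset.univ.filter (fun e : G.edgeSet => x ∈ (e : Sym2 V)) =
        {ed x, ed (σ.symm x)} := by
      ext e
      obtain ⟨v, rfl⟩ := hsurj e
      simp only [Finset.mem_filter, Finset.mem_univ, true_and, hed, Sym2.mem_iff,
        Finset.mem_insert, Finset.mem_singleton, hinj.eq_iff]
      constructor
      · rintro (h | h)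
        · exact Or.inl h.symm
        · right
          rw [h, Equiv.symm_apply_apply]
      · rintro (h | h)
        · exact Or.inl h.symm
        · right
          rw [h, Equiv.apply_symm_apply]
    have hne : ed x ≠ ed (σ.symm x) := by
      intro h
      have h3 := hinj h
      apply h1 x
      nth_rewrite 1 [h3]
      exact Equiv.apply_symm_apply σ x
    rw [hfil, Finset.sum_pair hne]
    simp only [Sum.elim_inl, Sum.elim_inr]
    have e1 : E.symm (ed x) = x := by
      rw [← hE, Equiv.symm_apply_apply]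
    have e2 : E.symm (ed (σ.symm x)) = σ.symm x := by
      rw [← hE, Equiv.symm_apply_apply]
    rw [e1, e2]
    have h3 := hk (σ.symm x)
    rw [Equiv.apply_symm_apply] at h3
    omega

/-- Every union of two disjoint cycles of odd total order, except the union of a triangle and a
4-cycle, has a strong vertex-magic total labelling. -/
theorem result :
    ∀ m n : ℕ, 3 ≤ m → 3 ≤ n → Odd (m + n) → ¬ ((m = 3 ∧ n = 4) ∨ (m = 4 ∧ n = 3)) →
    ∀ (V : Type) [Fintype V] [DecidableEq V] (G : SimpleGraph V) [DecidableRel G.Adj],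
    Nonempty (G ≃g (cycleGraph m ⊕g cycleGraph n)) →
    ∃ f : V ⊕ G.edgeSet → ℕ, Function.Injective f ∧
      (∀ x, 1 ≤ f x ∧ f x ≤ Fintype.card V + Fintype.card G.edgeSet) ∧
      (∀ v : V, Fintype.card G.edgeSet < f (Sum.inl v)) ∧
      ∃ k : ℕ, ∀ x : V,
        f (Sum.inl x) + ∑ e ∈ Finset.univ.filter (fun e : G.edgeSet => x ∈ (e : Sym2 V)),
          f (Sum.inr e) = k := by
  intro m n hm hn hodd hex V _ _ G _ ⟨e⟩
  obtain ⟨f, g, k, hf, hg, hfr, hgr, hk1, hk2⟩ :=
    Pool.Agent.Helper1.CycleMagic.Multi.has_all m n hm hn hex hodd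
  have hm0 : NeZero m := ⟨by omega⟩
  have hn0 : NeZero n := ⟨by omega⟩
  let τ : Equiv.Perm (Fin m ⊕ Fin n) := Equiv.sumCongr (Equiv.addRight 1) (Equiv.addRight 1)
  have hτ1 : ∀ i : Fin m, τ (Sum.inl i) = Sum.inl (i + 1) := fun _ => rfl
  have hτ2 : ∀ i : Fin n, τ (Sum.inr i) = Sum.inr (i + 1) := fun _ => rfl
  have one : ∀ (a : ℕ) [NeZero a], 3 ≤ a → (1 : Fin a) ≠ 0 := by
    intro a _ ha h
    have := congrArg Fin.val h
    rw [Fin.val_one', Nat.mod_eq_of_lt (by omega)] at this
    simp at this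
  have two : ∀ (a : ℕ) [NeZero a], 3 ≤ a → (1 : Fin a) + 1 ≠ 0 := by
    intro a _ ha h
    have := congrArg Fin.val h
    rw [Fin.val_add, Fin.val_one', Nat.mod_eq_of_lt (show 1 < a by omega),
      Nat.mod_eq_of_lt (by omega)] at this
    simp at this
  have hne1 : ∀ v, τ v ≠ v := by
    rintro (i | i) h
    · rw [hτ1] at h
      exact one m hm (by simpa using Sum.inl.inj h)
    · rw [hτ2] at h
      exact one n hn (by simpa using Sum.inr.inj h)
  have hne2 : ∀ v, τ (τ v) ≠ v := by
    rintro (i | i) h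
    · rw [hτ1, hτ1, add_assoc] at h
      exact two m hm (by simpa using Sum.inl.inj h)
    · rw [hτ2, hτ2, add_assoc] at h
      exact two n hn (by simpa using Sum.inr.inj h)
  have cyc : ∀ (a : ℕ) [NeZero a], 3 ≤ a → ∀ u v : Fin a,
      (cycleGraph a).Adj u v ↔ v = u + 1 ∨ u = v + 1 := by
    intro a _ ha u v
    obtain ⟨b, rfl⟩ : ∃ b, a = b + 2 := ⟨a - 2, by omega⟩
    rw [cycleGraph_adj]
    constructor
    · rintro (h | h)
      · right
        rw [← h]
        abel
      · left
        rw [← h]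
        abel
    · rintro (h | h)
      · right
        rw [h]
        abel
      · left
        rw [h]
        abel
  have hadj : ∀ u v, (cycleGraph m ⊕g cycleGraph n).Adj u v ↔ v = τ u ∨ u = τ v := by
    rintro (u | u) (v | v)
    · rw [hτ1, hτ1]
      simp only [SimpleGraph.sum_adj, Sum.inl.injEq]
      exact cyc m hm u v
    · simp [hτ1, hτ2]
    · simp [hτ1, hτ2]
    · rw [hτ2, hτ2]
      simp only [SimpleGraph.sum_adj, Sum.inr.injEq]
      exact cyc n hn u v
  have hcard : Fintype.card V = m + n := by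
    rw [Fintype.card_congr e.toEquiv, Fintype.card_sum, Fintype.card_fin, Fintype.card_fin]
  have hkk : ∀ v, f v + f (τ v) + g v = k := by
    rintro (i | i)
    · rw [hτ1]
      apply hk1
      rw [Fin.val_add, Fin.val_one', Nat.mod_eq_of_lt (show 1 < m by omega)]
    · rw [hτ2]
      apply hk2
      rw [Fin.val_add, Fin.val_one', Nat.mod_eq_of_lt (show 1 < n by omega)]
  let σ : Equiv.Perm V := (e.toEquiv.trans τ).trans e.toEquiv.symm
  have hσ : ∀ v, e (σ v) = τ (e v) := fun v => e.toEquiv.apply_symm_apply _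
  refine strong_of_perm G σ ?_ ?_ ?_
    (fun v => f (e v)) (fun v => g (e v)) k (hf.comp e.injective) (hg.comp e.injective) ?_ ?_ ?_
  · intro v h
    apply hne1 (e v)
    rw [← hσ, h]
  · intro v h
    apply hne2 (e v)
    rw [← hσ, ← hσ, h]
  · intro u v
    rw [← e.map_adj_iff, hadj, ← hσ, ← hσ, e.injective.eq_iff, e.injective.eq_iff]
  · intro v
    rw [hcard]
    exact hfr _
  · intro v
    rw [hcard]
    exact hgr _
  · intro v
    change f (e v) + f (e (σ v)) + g (e v) = k
    rw [hσ]
    exact hkk (e v)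

end Pool.Agent.Results.MP_be123d_co.TwoCycles
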